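import Mathlib
import Pool.Agent.V11100.Duality

open Filter Topology

namespace Pool.Agent.Results.MP_11f428_an.NoExample

section Defs

variable (𝕜 : Type*) [RCLike 𝕜] {E : Type*} [NormedAddCommGroup E] [NormedSpace 𝕜 E]

/-- The closed linear span of a sequence. -/
def clspan (s : ℕ → E) : Submodule 𝕜 E := (Submodule.span 𝕜 (Set.range s)).topologicalClosure

/-- `(x_n)` with associated functionals `(f_n)` is an M-basis. -/
structure IsMBasis (x : ℕ → E) (f : ℕ → StrongDual 𝕜 E) : Prop where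
  biorth : ∀ i j, f i (x j) = if i = j then 1 else 0
  complete : clspan 𝕜 x = ⊤
  total : ∀ v : E, (∀ n, f n v = 0) → v = 0

/-- An M-basis with associated functionals `(f_n)` is shrinking if `[f_n] = E^*`. -/
def IsShrinking (f : ℕ → StrongDual 𝕜 E) : Prop := clspan 𝕜 f = ⊤

/-- Bounded completeness of an M-basis of `X` whose associated functionals are `(F_n)`: whenever
`(y_j)` is bounded and `α_n = lim_j F_n(y_j)` exists for every `n`, some `v` in `X` has
`F_n(v) = α_n` for all `n`. -/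
def IsBoundedlyComplete {X : Type*} [NormedAddCommGroup X] (F : ℕ → X → 𝕜) : Prop :=
  ∀ (y : ℕ → X) (α : ℕ → 𝕜), (∃ C : ℝ, ∀ j, ‖y j‖ ≤ C) →
    (∀ n, Tendsto (fun j => F n (y j)) atTop (𝓝 (α n))) → ∃ v : X, ∀ n, F n v = α n

end Defs

variable {𝕜 : Type*} [RCLike 𝕜] {E : Type*} [NormedAddCommGroup E] [NormedSpace 𝕜 E]

/-- Bounded completeness lets one represent bidual functionals by vectors. -/
theorem represent {V : Type*} [NormedAddCommGroup V] [NormedSpace 𝕜 V] (z : ℕ → StrongDual 𝕜 V)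
    (hbc : IsBoundedlyComplete 𝕜 (fun n (v : V) => z n v)) (Ψ : StrongDual 𝕜 (StrongDual 𝕜 V)) :
    ∃ v : V, ∀ g ∈ clspan 𝕜 z, Ψ g = g v := by
  have h1 : ∀ j : ℕ, ∃ v : V, ‖v‖ ≤ ‖Ψ‖ ∧
      ∀ i : Fin (j + 1), ‖z i v - Ψ (z i)‖ < 1 / ((j : ℝ) + 1) := by
    intro j
    apply Pool.Agent.V11100.helly_approx (fun i : Fin (j + 1) => z i) (fun i => Ψ (z i))
      (M := ‖Ψ‖) (norm_nonneg Ψ)
    · intro c
      have : ∑ i, c i * Ψ (z i) = Ψ (∑ i : Fin (j + 1), c i • z i) := by
        rw [map_sum]; simp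
      rw [this]
      exact Ψ.le_opNorm _
    · positivity
  choose v hv1 hv2 using h1
  have hlim : ∀ n, Tendsto (fun j => z n (v j)) atTop (𝓝 (Ψ (z n))) := by
    intro n
    rw [tendsto_iff_norm_sub_tendsto_zero]
    apply squeeze_zero' (Eventually.of_forall (fun _ => norm_nonneg _)) _
      tendsto_one_div_add_atTop_nhds_zero_nat
    filter_upwards [eventually_ge_atTop n] with j hj
    exact (hv2 j ⟨n, by omega⟩).le
  obtain ⟨w, hw⟩ := hbc v (fun n => Ψ (z n)) ⟨‖Ψ‖, hv1⟩ hlim
  refine ⟨w, ?_⟩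
  -- both sides are continuous linear in `g` and agree on the `z n`
  let Φ : StrongDual 𝕜 (StrongDual 𝕜 V) := Ψ - NormedSpace.inclusionInDoubleDual 𝕜 V w
  have h2 : clspan 𝕜 z ≤ LinearMap.ker (Φ : StrongDual 𝕜 V →ₗ[𝕜] 𝕜) := by
    apply Submodule.topologicalClosure_minimal
    · rw [Submodule.span_le]
      rintro _ ⟨n, rfl⟩
      show Φ (z n) = 0
      simp only [Φ, sub_apply, NormedSpace.dual_def]
      have := hw n
      simp only at this
      rw [this, sub_self]
    · exact Φ.isClosed_ker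
  intro g hg
  have h3 : Φ g = 0 := h2 hg
  simp only [Φ, sub_apply, NormedSpace.dual_def, sub_eq_zero] at h3
  exact h3

/-- The general form: `V` is a normed space isometrically embedded in `E^*`. -/
theorem general [CompleteSpace E] {V : Type*} [NormedAddCommGroup V] [NormedSpace 𝕜 V]
    (J : V →ₗᵢ[𝕜] StrongDual 𝕜 E) (x : ℕ → E) (hx : clspan 𝕜 x = ⊤)
    (htot : ∀ v : E, (∀ w : V, J w v = 0) → v = 0)
    (hbc : IsBoundedlyComplete 𝕜 (fun n (g : V) => J g (x n))) : Function.Surjective J := by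
  let U : E →L[𝕜] StrongDual 𝕜 V := J.toContinuousLinearMap.flip
  have hU : ∀ (w : E) (v : V), U w v = J v w := fun w v => rfl
  let z : ℕ → StrongDual 𝕜 V := fun n => U (x n)
  let Z : Submodule 𝕜 (StrongDual 𝕜 V) := clspan 𝕜 z
  have hrange : ∀ w : E, U w ∈ Z := by
    have h1 : clspan 𝕜 x ≤ Z.comap (U : E →ₗ[𝕜] StrongDual 𝕜 V) := by
      apply Submodule.topologicalClosure_minimal
      · rw [Submodule.span_le]
        rintro _ ⟨n, rfl⟩
        exact Submodule.le_topologicalClosure _ (Submodule.subset_span ⟨n, rfl⟩)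
      · exact (Submodule.isClosed_topologicalClosure _).preimage U.continuous
    intro w
    have h2 : w ∈ clspan 𝕜 x := by rw [hx]; trivial
    exact h1 h2
  have hrep : ∀ Ψ : StrongDual 𝕜 (StrongDual 𝕜 V), ∃ v : V, ∀ g ∈ Z, Ψ g = g v :=
    represent z hbc
  -- work with an abstract copy of `Z`
  have key : ∀ (W : Type _) [NormedAddCommGroup W] [NormedSpace 𝕜 W] [CompleteSpace W]
      (I : W →ₗᵢ[𝕜] StrongDual 𝕜 V) (u : E →L[𝕜] W), (∀ g, I g ∈ Z) → (∀ w, I (u w) = U w) →
      Function.Surjective J := by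
    intro W _ _ _ I u hI hu
    have hrepW : ∀ ψ : StrongDual 𝕜 W, ∃ v : V, ∀ g : W, ψ g = I g v := by
      intro ψ
      obtain ⟨Ψ, hΨ⟩ : ∃ Ψ : StrongDual 𝕜 (StrongDual 𝕜 V), ∀ g, Ψ (I g) = ψ g := by
        let e := I.equivRange
        obtain ⟨Ψ, hΨ, _⟩ := exists_extension_norm_eq (LinearMap.range I.toLinearMap)
          (ψ.comp (e.symm : _ →L[𝕜] W))
        refine ⟨Ψ, fun g => ?_⟩
        have h4 := hΨ (e g)
        have h5 : ((e g : LinearMap.range I.toLinearMap) : StrongDual 𝕜 V) = I g := rfl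
        rw [h5] at h4
        rw [h4]
        simp
      obtain ⟨v, hv⟩ := hrep Ψ
      exact ⟨v, fun g => by rw [← hΨ g]; exact hv _ (hI g)⟩
    have hsurj : Function.Surjective u := by
      apply Pool.Agent.V11100.surjective_of_dual_bound u (C := 1) zero_le_one
      intro ψ
      obtain ⟨v, hv⟩ := hrepW ψ
      have h1 : ψ.comp u = J v := by
        ext w
        rw [ContinuousLinearMap.comp_apply, hv, hu, hU]
      rw [h1, one_mul, J.norm_map]
      apply ψ.opNorm_le_bound (norm_nonneg _)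
      intro g
      rw [hv, mul_comm, ← I.norm_map g]
      exact (I g).le_opNorm v
    have hinj : Function.Injective u := by
      rw [injective_iff_map_eq_zero]
      intro w hw
      apply htot
      intro v
      rw [← hU, ← hu, hw]
      simp
    let e : E ≃L[𝕜] W := ContinuousLinearEquiv.ofBijective u (LinearMap.ker_eq_bot.mpr hinj)
      (LinearMap.range_eq_top.mpr hsurj)
    have he : ∀ w, e w = u w := fun w => rfl
    intro φ
    obtain ⟨v, hv⟩ := hrepW (φ.comp (e.symm : W →L[𝕜] E))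
    refine ⟨v, ?_⟩
    ext w
    have h3 := hv (u w)
    rw [hu, hU, ← he] at h3
    simpa using h3.symm
  have hcl : CompleteSpace Z := (Submodule.isClosed_topologicalClosure _).completeSpace_coe
  exact key Z Z.subtypeₗᵢ (U.codRestrict Z hrange) (fun g => g.2) (fun w => rfl)

end Pool.Agent.Results.MP_11f428_an.NoExample

open Pool.Agent.Results.MP_11f428_an.NoExample in
/-- If `(f_n)` is a boundedly complete M-basis of `[f_n]` then the M-basis `(x_n)` is shrinking. -/
theorem Pool.Agent.Results.MP_11f428_an.NoExample.result {𝕜 : Type*} [RCLike 𝕜] {E : Type*}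
    [NormedAddCommGroup E] [NormedSpace 𝕜 E] [CompleteSpace E] (x : ℕ → E)
    (f : ℕ → StrongDual 𝕜 E) (hM : IsMBasis 𝕜 x f)
    (hbc : IsBoundedlyComplete 𝕜 (fun n (g : clspan 𝕜 f) => (g : StrongDual 𝕜 E) (x n))) :
    IsShrinking 𝕜 f := by
  have h := general (clspan 𝕜 f).subtypeₗᵢ x hM.complete
    (fun v hv => hM.total v (fun n => hv ⟨f n, Submodule.le_topologicalClosure _
      (Submodule.subset_span ⟨n, rfl⟩)⟩)) hbc
  unfold IsShrinking
  rw [eq_top_iff]
  rintro φ -
  obtain ⟨v, rfl⟩ := h φ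
  exact v.2
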